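import Pool.Agent.H948.HS.Stm

/-! # Project HS: HW (bridges have the growth rate of self-avoiding walks) -/

set_option autoImplicit false

namespace Pool.Agent.H695.HS

open MeasureTheory ProbabilityTheory Set Filter Metric
open Pool.Agent.H948.HS

theorem s_hw (hM : S_LAM) (hb : S_BRL) (h1 : S_HW1) : S_HW := by
  intro m c ρ hc0 hc1 hρ0 hρ
  obtain ⟨hl0, hl1, -⟩ := hM m c hc0 hc1
  obtain ⟨hp0, hp1, hpB, hBB, -, -⟩ := hb m c hc0 hc1
  obtain ⟨ρ1, hρ1⟩ : ∃ ρ1 : ℝ, ρ1 = (ρ + lam m c) / 2 := ⟨_, rfl⟩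
  have h01 : 0 < ρ1 := by rw [hρ1]; linarith
  have h11 : ρ1 ≤ 1 := by rw [hρ1]; linarith
  have hlt : ρ < ρ1 := by rw [hρ1]; linarith
  have hne : ¬ ∀ n, 1 ≤ n → B m c n ≤ ρ1 ^ n := by
    intro h
    have := h1 m c ρ1 hc0 hc1 h01 h11 h
    rw [hρ1] at this
    linarith
  push Not at hne
  obtain ⟨k, hk, hBk⟩ := hne
  have hB0 : ∀ n, 0 ≤ B m c n := fun n => (pow_nonneg hp0.le n).trans (hpB n)
  have hpow : ∀ q : ℕ, (ρ1 ^ k) ^ q ≤ B m c (q * k) := by
    intro q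
    induction q with
    | zero =>
      rw [pow_zero, zero_mul]
      simpa using hpB 0
    | succ q ih =>
      rw [pow_succ, Nat.succ_mul]
      refine le_trans ?_ (hBB (q * k) k)
      exact mul_le_mul ih hBk.le (by positivity) (hB0 _)
  have hlow : ∀ n, ρ1 ^ n * pc m c ^ k ≤ B m c n := by
    intro n
    have hn : n / k * k + n % k = n := Nat.div_add_mod' n k
    have hr : n % k < k := Nat.mod_lt _ (by omega)
    have e1 : ρ1 ^ n ≤ (ρ1 ^ k) ^ (n / k) := by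
      rw [← pow_mul]
      apply pow_le_pow_of_le_one h01.le h11
      rw [mul_comm]
      omega
    have e2 : pc m c ^ k ≤ pc m c ^ (n % k) := pow_le_pow_of_le_one hp0.le hp1 hr.le
    calc ρ1 ^ n * pc m c ^ k ≤ (ρ1 ^ k) ^ (n / k) * pc m c ^ (n % k) := by gcongr
      _ ≤ B m c (n / k * k) * B m c (n % k) :=
          mul_le_mul (hpow _) (hpB _) (by positivity) (hB0 _)
      _ ≤ B m c (n / k * k + n % k) := hBB _ _
      _ = B m c n := by rw [hn]
  have hlim : Tendsto (fun n : ℕ => (ρ1 / ρ) ^ n) atTop atTop :=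
    tendsto_pow_atTop_atTop_of_one_lt ((one_lt_div hρ0).2 hlt)
  obtain ⟨n0, hn0⟩ := eventually_atTop.1 (hlim.eventually_ge_atTop (1 / pc m c ^ k))
  refine ⟨n0, fun n hn => le_trans ?_ (hlow n)⟩
  have h2 := hn0 n hn
  rw [div_pow, div_le_div_iff₀ (by positivity) (by positivity), one_mul] at h2
  exact h2

end Pool.Agent.H695.HS
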